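import Pool.Agent.helper34.MO.SpecC

/-! Project MO (MP_0631c5_co), row TCW: change of weights for trees. -/

open Complex Finset

namespace Pool.Agent.MO

/-- the shape of a weighted tree -/
def TCW_sh : WT → Tr
  | .e => .e
  | .nd _ l r => .nd (TCW_sh l) (TCW_sh r)

/-- the weight at position `x` of the tree placed at `i` -/
noncomputable def TCW_wf : WT → ℕ → ℕ → ℝ
  | .e, _, _ => 1
  | .nd o l r, i, x =>
    if x = i + (TCW_sh l).sz + 1 then o.getD 1
    else if x < i + (TCW_sh l).sz + 1 then TCW_wf l i x
    else TCW_wf r (i + (TCW_sh l).sz + 1) x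

theorem TCW_pos : ∀ (t : WT) (i x : ℕ), PosW t → 0 < TCW_wf t i x := by
  intro t
  induction t with
  | e => intro i x _; exact one_pos
  | nd o l r ihl ihr =>
    intro i x h
    cases o with
    | none =>
      obtain ⟨h1, h2⟩ := h
      simp only [TCW_wf]
      split_ifs
      · exact one_pos
      · exact ihl i x h1
      · exact ihr _ x h2
    | some T =>
      obtain ⟨h0, h1, h2⟩ := h
      simp only [TCW_wf]
      split_ifs
      · exact h0
      · exact ihl i x h1
      · exact ihr _ x h2

theorem TCW_same_sh : ∀ (t t' : WT), SameF t t' → TCW_sh t = TCW_sh t' := by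
  intro t
  induction t with
  | e =>
    intro t' h
    cases t' with
    | e => rfl
    | nd o l r => exact absurd h (by simp [SameF])
  | nd o l r ihl ihr =>
    intro t' h
    cases t' with
    | e => cases o <;> exact absurd h (by simp [SameF])
    | nd o' l' r' =>
      cases o with
      | none => exact absurd h (by simp [SameF])
      | some T =>
        cases o' with
        | none => exact absurd h (by simp [SameF])
        | some T' =>
          obtain ⟨h1, h2⟩ := h
          simp only [TCW_sh, ihl l' h1, ihr r' h2]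

/-- the restriction of the agreement to the two subtrees -/
theorem TCW_agree (T : ℝ) (l r : WT) (i : ℕ) (w : ℕ → ℝ)
    (hw : ∀ x, i < x → x < i + (TCW_sh (.nd (some T) l r)).sz + 1 → w x = TCW_wf (.nd (some T) l r) i x) :
    w (i + (TCW_sh l).sz + 1) = T ∧
    (∀ x, i < x → x < i + (TCW_sh l).sz + 1 → w x = TCW_wf l i x) ∧
    ∀ x, i + (TCW_sh l).sz + 1 < x → x < i + (TCW_sh l).sz + 1 + (TCW_sh r).sz + 1 →
      w x = TCW_wf r (i + (TCW_sh l).sz + 1) x := by
  have hsz : (TCW_sh (.nd (some T) l r)).sz = (TCW_sh l).sz + (TCW_sh r).sz + 1 := rfl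
  refine ⟨?_, fun x h1 h2 => ?_, fun x h1 h2 => ?_⟩
  · rw [hw _ (by omega) (by omega)]
    simp only [TCW_wf]
    rw [if_pos trivial]
    rfl
  · rw [hw _ h1 (by omega)]
    simp only [TCW_wf]
    rw [if_neg (by omega), if_pos h2]
  · rw [hw _ (by omega) (by omega)]
    simp only [TCW_wf]
    rw [if_neg (by omega), if_neg (by omega)]

theorem TCW_wt : ∀ (t t' : WT) (i : ℕ) (w : ℕ → ℝ), SameF t t' →
    (∀ x, i < x → x < i + (TCW_sh t).sz + 1 → w x = TCW_wf t i x) → wt w (TCW_sh t) i = t := by
  intro t
  induction t with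
  | e => intro t' i w _ _; rfl
  | nd o l r ihl ihr =>
    intro t' i w h hw
    cases t' with
    | e => cases o <;> exact absurd h (by simp [SameF])
    | nd o' l' r' =>
      cases o with
      | none => exact absurd h (by simp [SameF])
      | some T =>
        cases o' with
        | none => exact absurd h (by simp [SameF])
        | some T' =>
          obtain ⟨h1, h2⟩ := h
          obtain ⟨a1, a2, a3⟩ := TCW_agree T l r i w hw
          have e1 := ihl l' i w h1 a2
          have e2 := ihr r' (i + (TCW_sh l).sz + 1) w h2 a3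
          show WT.nd (some (w (i + (TCW_sh l).sz + 1))) (wt w (TCW_sh l) i)
            (wt w (TCW_sh r) (i + (TCW_sh l).sz + 1)) = _
          rw [a1, e1, e2]

theorem TCW_symm : ∀ (t t' : WT), SameF t t' → SameF t' t := by
  intro t
  induction t with
  | e =>
    intro t' h
    cases t' with
    | e => trivial
    | nd o l r => exact absurd h (by simp [SameF])
  | nd o l r ihl ihr =>
    intro t' h
    cases t' with
    | e => cases o <;> exact absurd h (by simp [SameF])
    | nd o' l' r' =>
      cases o with
      | none => exact absurd h (by simp [SameF])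
      | some T =>
        cases o' with
        | none => exact absurd h (by simp [SameF])
        | some T' =>
          obtain ⟨h1, h2⟩ := h
          exact ⟨ihl l' h1, ihr r' h2⟩

theorem TCW_sum : ∀ (t t' : WT) (i : ℕ) (w w' : ℕ → ℝ), SameF t t' →
    (∀ x, i < x → x < i + (TCW_sh t).sz + 1 → w x = TCW_wf t i x) →
    (∀ x, i < x → x < i + (TCW_sh t').sz + 1 → w' x = TCW_wf t' i x) →
    ∑ k ∈ Ioo i (i + (TCW_sh t).sz + 1), chi (w k) (w' k) = wdist t t' := by
  intro t
  induction t with
  | e =>
    intro t' i w w' h _ _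
    cases t' with
    | e =>
      have h1 : Ioo i (i + (TCW_sh WT.e).sz + 1) = ∅ := by
        ext x
        simp only [mem_Ioo, notMem_empty, iff_false, not_and, not_lt, TCW_sh, Tr.sz]
        omega
      rw [h1]
      simp [wdist]
    | nd o l r => exact absurd h (by simp [SameF])
  | nd o l r ihl ihr =>
    intro t' i w w' h hw hw'
    cases t' with
    | e => cases o <;> exact absurd h (by simp [SameF])
    | nd o' l' r' =>
      cases o with
      | none => exact absurd h (by simp [SameF])
      | some T =>
        cases o' with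
        | none => exact absurd h (by simp [SameF])
        | some T' =>
          obtain ⟨h1, h2⟩ := h
          obtain ⟨a1, a2, a3⟩ := TCW_agree T l r i w hw
          obtain ⟨b1, b2, b3⟩ := TCW_agree T' l' r' i w' hw'
          have s1 := TCW_same_sh l l' h1
          have s2 := TCW_same_sh r r' h2
          have e1 := ihl l' i w w' h1 a2 b2
          rw [← s1] at b1 b3
          have e2 := ihr r' (i + (TCW_sh l).sz + 1) w w' h2 a3 b3
          have hsz : (TCW_sh (.nd (some T) l r)).sz = (TCW_sh l).sz + (TCW_sh r).sz + 1 := rfl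
          have hI : Ioo i (i + (TCW_sh (.nd (some T) l r)).sz + 1) =
              insert (i + (TCW_sh l).sz + 1) (Ioo i (i + (TCW_sh l).sz + 1) ∪
                Ioo (i + (TCW_sh l).sz + 1) (i + (TCW_sh l).sz + 1 + (TCW_sh r).sz + 1)) := by
            ext x
            simp only [mem_Ioo, mem_insert, mem_union, hsz]
            omega
          rw [hI, sum_insert (by simp), sum_union, e1, e2, a1, b1]
          · simp only [wdist]
            ring
          · rw [Finset.disjoint_left]
            intro x hx hx'
            rw [mem_Ioo] at hx hx'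
            omega

theorem TCW (hPHE : PHE_stmt) (hCHI : CHI_stmt) (hTCH : TCH_stmt) (hLNK : LNK_stmt) (hATS : ATS_stmt) :
    TCW_stmt := by
  intro t t' a b a' b' hS hP hP' ha hb ha' hb'
  have hsh : TCW_sh t = TCW_sh t' := TCW_same_sh t t' hS
  -- the two weight functions
  have key : ∀ (u : WT) (c d : ℝ), PosW u → 0 < c → 0 < d → ∃ w : ℕ → ℝ, (∀ x, 0 < w x) ∧ w 0 = c ∧
      w ((TCW_sh u).sz + 1) = d ∧ ∀ x, 0 < x → x < 0 + (TCW_sh u).sz + 1 → w x = TCW_wf u 0 x := by
    intro u c d hu hc hd
    refine ⟨fun x => if x = 0 then c else if x = (TCW_sh u).sz + 1 then d else TCW_wf u 0 x, ?_, ?_, ?_, ?_⟩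
    · intro x
      show 0 < (if x = 0 then c else if x = (TCW_sh u).sz + 1 then d else TCW_wf u 0 x)
      split_ifs
      · exact hc
      · exact hd
      · exact TCW_pos u 0 x hu
    · show (if (0 : ℕ) = 0 then c else _) = c
      rw [if_pos rfl]
    · show (if (TCW_sh u).sz + 1 = 0 then c else if (TCW_sh u).sz + 1 = (TCW_sh u).sz + 1 then d else _) = d
      rw [if_neg (by omega), if_pos rfl]
    · intro x h1 h2
      show (if x = 0 then c else if x = (TCW_sh u).sz + 1 then d else TCW_wf u 0 x) = TCW_wf u 0 x
      rw [if_neg (by omega), if_neg (by omega)]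
  obtain ⟨w, w1, w2, w3, w4⟩ := key t a b hP ha hb
  obtain ⟨w', v1, v2, v3, v4⟩ := key t' a' b' hP' ha' hb'
  have l1 := hLNK (TCW_sh t) w w1
  have l2 := hLNK (TCW_sh t) w' v1
  have q1 : wt w (TCW_sh t) 0 = t := TCW_wt t t' 0 w hS w4
  have q2 : wt w' (TCW_sh t) 0 = t' := by
    rw [hsh]
    exact TCW_wt t' t 0 w' (TCW_symm t t' hS) v4
  rw [w2, w3, q1] at l1
  rw [v2, q2, hsh, v3] at l2
  rw [← hsh] at l2
  have h3 := hTCH w w' (AG (TCW_sh t)) (range ((TCW_sh t).sz + 2)) w1 v1
    (fun x y => (hATS.2 (TCW_sh t) x y).1)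
  have h4 := TCW_sum t t' 0 w w' hS w4 v4
  have h5 : range ((TCW_sh t).sz + 2) =
      insert 0 (insert ((TCW_sh t).sz + 1) (Ioo 0 (0 + (TCW_sh t).sz + 1))) := by
    ext x
    simp only [mem_range, mem_insert, mem_Ioo]
    omega
  have h6 : ∑ k ∈ range ((TCW_sh t).sz + 2), chi (w k) (w' k) = chi a a' + chi b b' + wdist t t' := by
    rw [h5, sum_insert (by simp), sum_insert (by simp), h4, w2, w3, v2, hsh, v3]
    ring
  rw [l1, l2, h6] at h3
  linarith

end Pool.Agent.MO
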